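import Pool.Agent.H45.NVE.FFE0
import Pool.Agent.H61.NVK.TargetsE2
import Pool.Agent.H63.HK.DU
import Pool.Agent.H87.HK.CT
import Pool.Agent.H87.HK.DC
import Pool.Agent.H87.HK.UI
import Pool.Agent.H87.HK.YC
import Pool.Agent.H3.HK.TH
import Pool.Agent.H3.HK.GA
import Pool.Agent.H3.HK.GM
import Pool.Agent.H3.HK.LB
import Pool.Agent.H16.HK.GS
import Pool.Agent.H16.HK.PO
import Pool.Agent.H16.HK.PS

/-!
# FFE: the functional equation of the averaged theta function (helper45)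
-/

set_option autoImplicit false

open NumberField NumberField.InfinitePlace NumberField.Units
  NumberField.Units.dirichletUnitTheorem MeasureTheory Set Filter Asymptotics
open scoped nonZeroDivisors ENNReal

namespace Pool.Agent.H45.NVE_FFE

open Pool.Agent.H25.HK Pool.Agent.H63.HK

open scoped Classical in
section
variable (K : Type) [Field K] [NumberField K]

theorem ff_scale (hUI : T_UI) (M : FI K) (x : K) (hx : x ≠ 0) (t : ℝ) (ht : 0 < t) :
    ff K (FractionalIdeal.spanSingleton (𝓞 K)⁰ x * M) t = ff K M (Real.exp (tx K x) * t) := by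
  unfold ff
  rw [Real.log_mul (Real.exp_pos _).ne' ht.ne', Real.log_exp]
  have h1 : ∀ z : logSpace K, th K (FractionalIdeal.spanSingleton (𝓞 K)⁰ x * M)
      (yc K (Real.log t) z) = th K M (yc K (tx K x + Real.log t) (z + zx K x)) := by
    intro z
    rw [th_scale K M _ x hx, yc_shift, add_comm (Real.log t)]
  rw [integral_congr_ae (Eventually.of_forall h1)]
  exact trans_Fd K (fun z => th K M (yc K (tx K x + Real.log t) z)) (fun z l hl => by
    obtain ⟨u, rfl⟩ := mem_unitLattice_exists K l hl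
    exact (hUI K M _ z u).2) (zx K x)

theorem h_cont (hCT : T_CT) (hYC : T_YC) (hFD : T_FD) (M : FI K) (hM : M ≠ 0) :
    ContinuousOn (fun t => ff K M t - volume.real (Fd K)) (Ioi 0) := by
  refine ContinuousOn.sub ?_ continuousOn_const
  refine (gg_cont K hCT hYC hFD M hM).comp_continuousOn (Real.continuousOn_log.mono ?_)
  intro x hx
  exact ne_of_gt hx

theorem h_top (hCT : T_CT) (hYC : T_YC) (hFD : T_FD) (hDC : T_DC) (M : FI K) (hM : M ≠ 0)
    (r : ℝ) :
    (fun t => ff K M t - volume.real (Fd K)) =O[atTop] (fun t : ℝ => t ^ r) := by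
  have h1 := (ff_top K hCT hYC hFD hDC M hM r).norm_left
  refine IsBigO.of_norm_left (h1.congr_left fun t => ?_)
  rw [← Complex.ofReal_sub, Complex.norm_real]

theorem int_a (hCT : T_CT) (hYC : T_YC) (hFD : T_FD) (hDC : T_DC) (M : FI K) (hM : M ≠ 0)
    (T : ℝ) (hT : 0 < T) :
    IntegrableOn (fun t => ff K M t - volume.real (Fd K)) (Ioi T) ∧
    IntegrableOn (fun t => (ff K M t - volume.real (Fd K)) / t) (Ioi T) := by
  have hsub : Ici T ⊆ Ioi (0 : ℝ) := fun x hx => lt_of_lt_of_le hT hx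
  have hc : ContinuousOn (fun t => ff K M t - volume.real (Fd K)) (Ici T) :=
    (h_cont K hCT hYC hFD M hM).mono hsub
  have hc2 : ContinuousOn (fun t => (ff K M t - volume.real (Fd K)) / t) (Ici T) :=
    hc.div continuousOn_id fun x hx => ne_of_gt (hsub hx)
  have hg : IntegrableAtFilter (fun t : ℝ => t ^ (-2 : ℝ)) atTop volume :=
    integrableAtFilter_rpow_atTop_iff.mpr (by norm_num)
  have ho := h_top K hCT hYC hFD hDC M hM (-2)
  refine ⟨?_, ?_⟩
  · exact ((hc.locallyIntegrableOn measurableSet_Ici).integrableOn_of_isBigO_atTop ho hg).mono_set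
      Ioi_subset_Ici_self
  · have ho2 : (fun t => (ff K M t - volume.real (Fd K)) / t) =O[atTop]
        (fun t : ℝ => t ^ (-2 : ℝ)) := by
      refine IsBigO.trans ?_ ho
      refine IsBigO.of_bound 1 ?_
      filter_upwards [eventually_ge_atTop 1] with t ht
      rw [norm_div, one_mul]
      refine div_le_self (norm_nonneg _) ?_
      rw [Real.norm_eq_abs]
      exact ht.trans (le_abs_self t)
    exact ((hc2.locallyIntegrableOn measurableSet_Ici).integrableOn_of_isBigO_atTop ho2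
      hg).mono_set Ioi_subset_Ici_self

/-- the averaged theta function near zero -/
theorem ff_small (hTH : T_TH) (hUI : T_UI) (hYC : T_YC) (hFD : T_FD) (M : FI K) (hM : M ≠ 0)
    (t : ℝ) (ht : 0 < t) :
    ff K M t - volume.real (Fd K) / (cv K M * t) =
      (cv K M)⁻¹ * (t⁻¹ * (ff K (Pool.Agent.H25.HK.du K M) t⁻¹ - volume.real (Fd K))) := by
  have h1 := ff_feq K hTH hUI hYC hFD M hM t⁻¹ (inv_pos.2 ht)
  rw [one_div, inv_inv] at h1
  rw [h1, div_eq_mul_inv, mul_inv]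
  ring

theorem int_b (hTH : T_TH) (hUI : T_UI) (hCT : T_CT) (hYC : T_YC) (hFD : T_FD) (hDC : T_DC)
    (M : FI K) (hM : M ≠ 0) (hd : Pool.Agent.H25.HK.du K M ≠ 0) (T : ℝ) :
    IntegrableOn (fun t => ff K M t - volume.real (Fd K) / (cv K M * t)) (Ioc 0 T) := by
  have hc := h_cont K hCT hYC hFD (Pool.Agent.H25.HK.du K M) hd
  have ho := h_top K hCT hYC hFD hDC (Pool.Agent.H25.HK.du K M) hd (-1)
  have hcg : ContinuousOn (fun t : ℝ => t⁻¹ * (ff K (Pool.Agent.H25.HK.du K M) t⁻¹ - volume.real (Fd K)))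
      (Ioi 0) := by
    have h0 : ContinuousOn (fun t : ℝ => t⁻¹) (Ioi 0) :=
      continuousOn_inv₀.mono fun x hx => ne_of_gt hx
    refine h0.mul (hc.comp h0 ?_)
    intro x hx
    exact inv_pos.2 (mem_Ioi.1 hx)
  -- boundedness
  obtain ⟨C, hC⟩ := ho.bound
  obtain ⟨u₀, hu₀⟩ := eventually_atTop.1 hC
  obtain ⟨u₁, hu₁, hu₁'⟩ : ∃ u₁ : ℝ, 0 < u₁ ∧ u₀ ≤ u₁ := ⟨max u₀ 1, by positivity, le_max_left _ _⟩
  have hs : ∀ t : ℝ, 0 < t → t ≤ u₁⁻¹ →
      ‖t⁻¹ * (ff K (Pool.Agent.H25.HK.du K M) t⁻¹ - volume.real (Fd K))‖ ≤ C := by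
    intro t ht htu
    have h1 : u₁ ≤ t⁻¹ := by
      rw [le_inv_comm₀ hu₁ ht]
      exact htu
    have h2 := hu₀ t⁻¹ (hu₁'.trans h1)
    have h3 : ‖(t⁻¹ : ℝ) ^ (-1 : ℝ)‖ = t := by
      rw [Real.rpow_neg_one, inv_inv, Real.norm_eq_abs, abs_of_pos ht]
    rw [h3] at h2
    rw [norm_mul, Real.norm_eq_abs (t⁻¹), abs_of_pos (inv_pos.2 ht)]
    calc t⁻¹ * ‖ff K (Pool.Agent.H25.HK.du K M) t⁻¹ - volume.real (Fd K)‖ ≤ t⁻¹ * (C * t) :=
          mul_le_mul_of_nonneg_left h2 (inv_pos.2 ht).le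
      _ = C := by field_simp
  obtain ⟨C', hC'⟩ : ∃ C' : ℝ, ∀ t ∈ Icc u₁⁻¹ (max T u₁⁻¹),
      ‖t⁻¹ * (ff K (Pool.Agent.H25.HK.du K M) t⁻¹ - volume.real (Fd K))‖ ≤ C' := by
    have hsub : Icc u₁⁻¹ (max T u₁⁻¹) ⊆ Ioi (0 : ℝ) :=
      fun x hx => lt_of_lt_of_le (inv_pos.2 hu₁) hx.1
    exact isCompact_Icc.exists_bound_of_continuousOn (hcg.mono hsub)
  have hint : IntegrableOn (fun t : ℝ => t⁻¹ * (ff K (Pool.Agent.H25.HK.du K M) t⁻¹ - volume.real (Fd K)))
      (Ioc 0 T) := by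
    refine ⟨(hcg.mono fun x hx => hx.1).aestronglyMeasurable measurableSet_Ioc, ?_⟩
    refine HasFiniteIntegral.restrict_of_bounded (C := max C C') (by simp) ?_
    refine (ae_restrict_iff' measurableSet_Ioc).2 (Eventually.of_forall fun t ht => ?_)
    rcases le_total t u₁⁻¹ with h | h
    · exact (hs t ht.1 h).trans (le_max_left _ _)
    · exact (hC' t ⟨h, ht.2.trans (le_max_left _ _)⟩).trans (le_max_right _ _)
  refine (hint.const_mul (cv K M)⁻¹).congr ?_
  refine (ae_restrict_iff' measurableSet_Ioc).2 (Eventually.of_forall fun t ht => ?_)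
  exact (ff_small K hTH hUI hYC hFD M hM t ht.1).symm

end

theorem cTH : T_TH :=
  Pool.Agent.H3.HK.th_fe (Pool.Agent.H16.HK.po Pool.Agent.H16.HK.ps Pool.Agent.H3.HK.ga
    Pool.Agent.H16.HK.gs) Pool.Agent.H3.HK.gm Pool.Agent.H3.HK.lb

theorem pf_FFE : Pool.Agent.H61.NVK.T_FFE := by
  have hTH := cTH
  have hYC : T_YC := Pool.Agent.H87.HK.yc_main
  have hUI : T_UI := Pool.Agent.H87.HK.ui hYC
  have hCT : T_CT := Pool.Agent.H87.HK.ct hTH
  have hFD : T_FD := Pool.Agent.H66.HK.fd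
  have hDC : T_DC := Pool.Agent.H87.HK.dc hTH hYC hFD
  have hDU : T_DU := Pool.Agent.H63.HK.du
  intro k _ _ _ I hI
  obtain ⟨hd, -, -, hN, -⟩ := hDU k I hI
  have hcv : cv k I ≠ 0 := by
    unfold cv
    refine mul_ne_zero ?_ hN.ne'
    rw [Real.sqrt_ne_zero']
    exact abs_pos.mpr (Int.cast_ne_zero.mpr (discr_ne_zero k))
  refine ⟨?_, ?_, ?_, ?_⟩
  · intro t ht
    have h1 := ff_feq k hTH hUI hYC hFD I hI t ht
    change ff k (Pool.Agent.H25.HK.du k I) t = cv k I / t * ff k I (1 / t)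
    rw [h1]
    field_simp
  · intro T hT
    refine ⟨(int_a k hCT hYC hFD hDC I hI T hT).1, (int_a k hCT hYC hFD hDC I hI T hT).2, ?_⟩
    exact int_b k hTH hUI hCT hYC hFD hDC I hI hd T
  · intro x t hx ht
    have h1 := ff_scale k hUI I x hx t ht
    change ff k _ t = ff k I _
    rw [h1]
    congr 2
    unfold tx
    rw [Real.exp_sum]
    refine Finset.prod_congr rfl fun v _ => ?_
    have h2 : v.mult = 1 := by
      have hv : v.IsReal := IsTotallyReal.isReal v
      simp [InfinitePlace.mult, hv]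
    have h3 : |Pool.Agent.H65.CM4.rv v x| = v x := by
      have := InfinitePlace.norm_embedding_of_isReal (IsTotallyReal.isReal v) x
      rw [Real.norm_eq_abs] at this
      exact this
    rw [h2, h3, Nat.cast_one, one_mul, Real.exp_log ((InfinitePlace.pos_iff).2 hx)]
  · obtain ⟨-, -, h1, h2, -⟩ := hFD k
    exact ENNReal.toReal_pos h1.ne' h2.ne

end Pool.Agent.H45.NVE_FFE
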