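import Pool.Agent.H63.HK.WP
import Pool.Agent.H66.HK.FD

/-!
# Helper for FFE: translation and scaling of the averaged theta function (helper45)
-/

set_option autoImplicit false

open NumberField NumberField.InfinitePlace NumberField.Units
  NumberField.Units.dirichletUnitTheorem MeasureTheory Set Filter Asymptotics
open scoped nonZeroDivisors ENNReal

namespace Pool.Agent.H45.NVE_FFE

open Pool.Agent.H25.HK Pool.Agent.H63.HK

/-- the integral of a periodic function over the fundamental domain is invariant under
translations -/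
theorem trans_gen {E : Type*} [NormedAddCommGroup E] [NormedSpace ℝ E] [MeasurableSpace E]
    [BorelSpace E] [FiniteDimensional ℝ E] (μ : Measure E) [μ.IsAddHaarMeasure] {κ : Type*}
    [Finite κ] (b : Module.Basis κ ℝ E) (L : Submodule ℤ E)
    (hL : Submodule.span ℤ (Set.range b) = L) (g : E → ℝ) (hg : ∀ z, ∀ l ∈ L, g (z + l) = g z)
    (z₀ : E) :
    ∫ z in ZSpan.fundamentalDomain b, g (z + z₀) ∂μ = ∫ z in ZSpan.fundamentalDomain b, g z ∂μ := by
  subst hL
  set F := ZSpan.fundamentalDomain b with hF
  have hd : IsAddFundamentalDomain (Submodule.span ℤ (Set.range b)) F μ :=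
    ZSpan.isAddFundamentalDomain b μ
  haveI : Countable (Submodule.span ℤ (Set.range b)) := inferInstance
  haveI : VAddInvariantMeasure (Submodule.span ℤ (Set.range b)) E μ :=
    inferInstanceAs (VAddInvariantMeasure (Submodule.span ℤ (Set.range b)).toAddSubgroup E μ)
  have hmp : MeasurePreserving (fun z : E => z - z₀) μ μ := measurePreserving_sub_right μ z₀
  have htr : IsAddFundamentalDomain (Submodule.span ℤ (Set.range b))
      ((fun z : E => z - z₀) ⁻¹' F) μ := by
    refine hd.preimage_of_equiv (f := fun z : E => z - z₀) hmp.quasiMeasurePreserving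
      (e := id) Function.bijective_id ?_
    intro l z
    simp only [id, Submodule.vadd_def, vadd_eq_add]
    abel
  have h1 : ∫ z in F, g (z + z₀) ∂μ = ∫ z in (fun z : E => z - z₀) ⁻¹' F, g z ∂μ := by
    have := hmp.setIntegral_preimage_emb (MeasurableEquiv.subRight z₀).measurableEmbedding
      (fun z => g (z + z₀)) F
    simpa using this.symm
  rw [h1]
  refine (htr.setIntegral_eq hd ?_)
  intro l z
  rw [Submodule.vadd_def, vadd_eq_add, add_comm]
  exact hg z l l.2

open scoped Classical in
section
variable (K : Type) [Field K] [NumberField K]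

theorem trans_Fd (g : logSpace K → ℝ) (hg : ∀ z, ∀ l ∈ unitLattice K, g (z + l) = g z)
    (z₀ : logSpace K) : ∫ z in Fd K, g (z + z₀) = ∫ z in Fd K, g z :=
  trans_gen (volume : Measure (logSpace K))
    ((basisUnitLattice K).ofZLatticeBasis ℝ (unitLattice K)) (unitLattice K)
    ((basisUnitLattice K).ofZLatticeBasis_span ℝ) g hg z₀

theorem qK_scale (y : InfinitePlace K → ℝ) (x w : K) (hx : x ≠ 0) :
    qK K y (x * w) = qK K (fun v => y v + 2 * Real.log (v x)) w := by
  unfold qK
  refine Finset.sum_congr rfl fun v _ => ?_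
  have hv : 0 < v x := (InfinitePlace.pos_iff).2 hx
  rw [map_mul, Real.exp_add, mul_pow]
  have h1 : Real.exp (2 * Real.log (v x)) = (v x) ^ 2 := by
    rw [mul_comm, Real.exp_mul, Real.exp_log hv]
    norm_cast
  rw [h1]
  ring

theorem th_scale (M : FI K) (y : InfinitePlace K → ℝ) (x : K) (hx : x ≠ 0) :
    th K (FractionalIdeal.spanSingleton (𝓞 K)⁰ x * M) y =
      th K M (fun v => y v + 2 * Real.log (v x)) := by
  unfold th
  let e : {w : K // w ∈ M} ≃ {w : K // w ∈ FractionalIdeal.spanSingleton (𝓞 K)⁰ x * M} :=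
    Equiv.ofBijective (fun w => ⟨x * w, FractionalIdeal.mem_singleton_mul.2 ⟨w, w.2, rfl⟩⟩) (by
      constructor
      · intro w w' h
        have h1 : x * (w : K) = x * (w' : K) := congrArg Subtype.val h
        exact Subtype.ext (mul_left_cancel₀ hx h1)
      · rintro ⟨u, hu⟩
        obtain ⟨w, hw, rfl⟩ := FractionalIdeal.mem_singleton_mul.1 hu
        exact ⟨⟨w, hw⟩, rfl⟩)
  rw [← e.tsum_eq]
  refine tsum_congr fun w => ?_
  have h2 : ((e w : {w : K // w ∈ FractionalIdeal.spanSingleton (𝓞 K)⁰ x * M}) : K) = x * w := rfl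
  rw [h2, qK_scale K y x w hx]

/-- the norm variable of an element -/
noncomputable def tx (x : K) : ℝ := ∑ v : InfinitePlace K, (v.mult : ℝ) * Real.log (v x)

/-- the unit variable of an element -/
noncomputable def zx (x : K) : logSpace K := fun w =>
  ((w : InfinitePlace K).mult : ℝ) * (Real.log ((w : InfinitePlace K) x) -
    tx K x / Module.finrank ℚ K)

theorem yc_shift (τ : ℝ) (z : logSpace K) (x : K) :
    (fun v => yc K τ z v + 2 * Real.log (v x)) = yc K (τ + tx K x) (z + zx K x) := by
  funext v
  have hn : (Module.finrank ℚ K : ℝ) ≠ 0 := by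
    have : 0 < Module.finrank ℚ K := Module.finrank_pos
    positivity
  have hm : ∀ v : InfinitePlace K, (v.mult : ℝ) ≠ 0 := fun v => by
    exact_mod_cast InfinitePlace.mult_ne_zero
  unfold yc
  by_cases h : v = w₀
  · subst h
    have h1 : ∑ w, (z + zx K x) w = ∑ w, z w + ∑ w, zx K x w := by
      rw [← Finset.sum_add_distrib]
      rfl
    have h2 : ∑ w, zx K x w = (tx K x - ((w₀ : InfinitePlace K).mult : ℝ) * Real.log (w₀ x)) -
        (tx K x / Module.finrank ℚ K) *
          (Module.finrank ℚ K - ((w₀ : InfinitePlace K).mult : ℝ)) := by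
      have h3 : ∑ w : {w : InfinitePlace K // w ≠ w₀},
          ((w : InfinitePlace K).mult : ℝ) * Real.log ((w : InfinitePlace K) x) =
          tx K x - ((w₀ : InfinitePlace K).mult : ℝ) * Real.log (w₀ x) := by
        unfold tx
        rw [Fintype.sum_eq_add_sum_subtype_ne _ (w₀ : InfinitePlace K)]
        ring
      have h4 : ∑ w : {w : InfinitePlace K // w ≠ w₀}, ((w : InfinitePlace K).mult : ℝ) =
          Module.finrank ℚ K - ((w₀ : InfinitePlace K).mult : ℝ) := by
        have h5 : (Module.finrank ℚ K : ℝ) = ∑ w : InfinitePlace K, (w.mult : ℝ) := by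
          rw [← InfinitePlace.sum_mult_eq (K := K)]
          push_cast
          rfl
        rw [h5, Fintype.sum_eq_add_sum_subtype_ne _ (w₀ : InfinitePlace K)]
        ring
      unfold zx
      simp only [mul_sub, Finset.sum_sub_distrib]
      rw [h3, ← Finset.sum_mul, h4]
      ring
    rw [dif_pos rfl, dif_pos rfl, h1, h2]
    field_simp [hm w₀, hn]
    ring
  · rw [dif_neg h, dif_neg h]
    simp only [Pi.add_apply, zx]
    field_simp [hm v, hn]
    ring

end

end Pool.Agent.H45.NVE_FFE
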