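import Pool.Agent.H61.NVK.TargetsE2
import Pool.Agent.H63.HK.DU

/-!
# SCL: the constant of a fractional ideal depends only on the class (helper45)
-/

set_option autoImplicit false

open MeasureTheory Set Filter NumberField NumberField.InfinitePlace Pool.Agent.H65.CM4
  Pool.Agent.H61.CM4 Pool.Agent.H61.NVK
open scoped Real nonZeroDivisors

namespace Pool.Agent.H45.NVE_SCL

/-- the scaling of the regularised integral -/
theorem reg_scale (f : ℝ → ℝ) (V c N : ℝ) (hN : 0 < N)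
    (h1 : ∀ T : ℝ, 0 < T → IntegrableOn (fun t => f t - V) (Ioi T))
    (h2 : ∀ T : ℝ, 0 < T → IntegrableOn (fun t => f t - V / (c * t)) (Ioc 0 T)) :
    (∫ t in Ioi (1 : ℝ), (f (N * t) - V)) + ∫ t in Ioc (0 : ℝ) 1, (f (N * t) - V / (N * c * t)) =
      N⁻¹ * ((∫ t in Ioi (1 : ℝ), (f t - V)) + (∫ t in Ioc (0 : ℝ) 1, (f t - V / (c * t))) +
        V * (N - 1) - V / c * Real.log N) := by
  have hA : ∫ t in Ioi (1 : ℝ), (f (N * t) - V) = N⁻¹ * ∫ t in Ioi N, (f t - V) := by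
    have := integral_comp_mul_left_Ioi (fun u => f u - V) 1 hN
    rw [mul_one, smul_eq_mul] at this
    exact this
  have hB : ∫ t in Ioc (0 : ℝ) 1, (f (N * t) - V / (N * c * t)) =
      N⁻¹ * ∫ t in (0 : ℝ)..N, (f t - V / (c * t)) := by
    rw [← intervalIntegral.integral_of_le zero_le_one]
    have := intervalIntegral.integral_comp_mul_left (a := 0) (b := 1)
      (fun u => f u - V / (c * u)) hN.ne'
    rw [mul_zero, mul_one, smul_eq_mul] at this
    rw [← this]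
    refine intervalIntegral.integral_congr fun t _ => ?_
    rw [show N * c * t = c * (N * t) by ring]
  have i01 : IntervalIntegrable (fun t => f t - V / (c * t)) volume 0 1 :=
    (intervalIntegrable_iff_integrableOn_Ioc_of_le zero_le_one).2 (h2 1 one_pos)
  have i0N : IntervalIntegrable (fun t => f t - V / (c * t)) volume 0 N :=
    (intervalIntegrable_iff_integrableOn_Ioc_of_le hN.le).2 (h2 N hN)
  have i1N : IntervalIntegrable (fun t => f t - V / (c * t)) volume 1 N := i01.symm.trans i0N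
  have j1N : IntervalIntegrable (fun t => f t - V) volume 1 N := by
    rw [intervalIntegrable_iff]
    exact (h1 (min 1 N) (lt_min one_pos hN)).mono_set Ioc_subset_Ioi_self
  have hC : ∫ t in (0 : ℝ)..N, (f t - V / (c * t)) =
      (∫ t in Ioc (0 : ℝ) 1, (f t - V / (c * t))) + ∫ t in (1 : ℝ)..N, (f t - V / (c * t)) := by
    rw [← intervalIntegral.integral_of_le zero_le_one,
      intervalIntegral.integral_add_adjacent_intervals i01 i1N]
  have hD : ∫ t in Ioi N, (f t - V) = (∫ t in Ioi (1 : ℝ), (f t - V)) -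
      ∫ t in (1 : ℝ)..N, (f t - V) := by
    rw [← intervalIntegral.integral_Ioi_sub_Ioi' (h1 1 one_pos) (h1 N hN)]
    ring
  have hE : (∫ t in (1 : ℝ)..N, (f t - V / (c * t))) - ∫ t in (1 : ℝ)..N, (f t - V) =
      V * (N - 1) - V / c * Real.log N := by
    rw [← intervalIntegral.integral_sub i1N j1N]
    have e1 : ∀ t : ℝ, f t - V / (c * t) - (f t - V) = V - V / c * t⁻¹ := by
      intro t
      rw [div_mul_eq_div_div, div_eq_mul_inv (V / c)]
      ring
    simp only [e1]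
    rw [intervalIntegral.integral_sub (by simp)]
    · rw [intervalIntegral.integral_const, intervalIntegral.integral_const_mul,
        integral_inv_of_pos one_pos hN, div_one, smul_eq_mul]
      ring
    · refine IntervalIntegrable.const_mul ?_ _
      refine intervalIntegral.intervalIntegrable_inv (fun x hx => ?_) continuousOn_id
      have h3 : min 1 N ≤ x := hx.1
      exact (lt_of_lt_of_le (lt_min one_pos hN) h3).ne'
  rw [hA, hB, hC, hD, ← mul_add]
  congr 1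
  linarith

section
variable {k : Type} [Field k] [NumberField k] [IsTotallyReal k]

/-- the norm of an element -/
noncomputable def Nx (x : k) : ℝ := ∏ v : Pl k, |rv v x|

theorem Nx_eq (x : k) : Nx x = ((|Algebra.norm ℚ x| : ℚ) : ℝ) := by
  rw [← InfinitePlace.prod_eq_abs_norm]
  unfold Nx
  refine Finset.prod_congr rfl fun v _ => ?_
  have hv : v.IsReal := IsTotallyReal.isReal v
  have h2 : v.mult = 1 := by simp [InfinitePlace.mult, hv]
  have h3 := InfinitePlace.norm_embedding_of_isReal (IsTotallyReal.isReal v) x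
  rw [h2, pow_one, ← h3, Real.norm_eq_abs]
  rfl

theorem Nx_pos {x : k} (hx : x ≠ 0) : 0 < Nx x := by
  rw [Nx_eq]
  have h : Algebra.norm ℚ x ≠ 0 := Algebra.norm_ne_zero_iff.2 hx
  exact_mod_cast abs_pos.2 h

theorem nF_scale (I : Pool.Agent.H25.HK.FI k) (x : k) :
    nF (FractionalIdeal.spanSingleton (𝓞 k)⁰ x * I) = Nx x * nF I := by
  unfold nF
  rw [map_mul, FractionalIdeal.absNorm_span_singleton, Nx_eq]
  push_cast
  rfl

theorem cF_scale (I : Pool.Agent.H25.HK.FI k) (x : k) :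
    cF (FractionalIdeal.spanSingleton (𝓞 k)⁰ x * I) = Nx x * cF I := by
  have h := nF_scale I x
  unfold nF at h
  unfold cF Pool.Agent.H25.HK.cv
  rw [h]
  ring

theorem sF_scale (hFFE : T_FFE) (hFRI : T_FRI) (I : Pool.Agent.H25.HK.FI k) (x : k) (hI : I ≠ 0)
    (hx : x ≠ 0) : sF (FractionalIdeal.spanSingleton (𝓞 k)⁰ x * I) = sF I := by
  obtain ⟨-, hint, hsc, -⟩ := hFFE k I hI
  have hN : 0 < Nx x := Nx_pos hx
  obtain ⟨-, -, -, -, -, -, hFR, -⟩ := hFRI k 1 1
  obtain ⟨-, hc, hn, hcn, -⟩ := hFR I hI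
  have hRF : Pool.Agent.H61.NVK.RF (FractionalIdeal.spanSingleton (𝓞 k)⁰ x * I) =
      (Nx x)⁻¹ * (Pool.Agent.H61.NVK.RF I + vR k * (Nx x - 1) - vR k / cF I * Real.log (Nx x)) := by
    unfold Pool.Agent.H61.NVK.RF
    rw [cF_scale]
    have e1 : ∫ t in Ioi (1 : ℝ), (fF (FractionalIdeal.spanSingleton (𝓞 k)⁰ x * I) t - vR k) =
        ∫ t in Ioi (1 : ℝ), (fF I (Nx x * t) - vR k) := by
      refine setIntegral_congr_fun measurableSet_Ioi fun t ht => ?_
      have ht0 : (0 : ℝ) < t := lt_trans one_pos ht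
      rw [hsc x t hx ht0]
      rfl
    have e2 : ∫ t in Ioc (0 : ℝ) 1, (fF (FractionalIdeal.spanSingleton (𝓞 k)⁰ x * I) t -
          vR k / (Nx x * cF I * t)) =
        ∫ t in Ioc (0 : ℝ) 1, (fF I (Nx x * t) - vR k / (Nx x * cF I * t)) := by
      refine setIntegral_congr_fun measurableSet_Ioc fun t ht => ?_
      rw [hsc x t hx ht.1]
      rfl
    rw [e1, e2]
    exact reg_scale (fF I) (vR k) (cF I) (Nx x) hN (fun T hT => (hint T hT).1)
      (fun T hT => (hint T hT).2.2)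
  unfold sF
  rw [hRF, nF_scale, Real.log_mul hN.ne' hn.ne', hcn]
  have hs : Real.sqrt (dk k) ≠ 0 := by
    intro h
    rw [hcn, h, zero_mul] at hc
    exact lt_irrefl _ hc
  field_simp
  ring

theorem sF_iF (hFRI : T_FRI) (a : (Ideal (𝓞 k))⁰) :
    sF (iF (a : Ideal (𝓞 k))) = sC (a : Ideal (𝓞 k)) := by
  obtain ⟨h0, -, -, -, -, -, hFR, hnm, -⟩ := hFRI k a 1
  obtain ⟨-, hc, hn, hcn, -⟩ := hFR _ h0
  unfold sF sC
  have : RF (iF (a : Ideal (𝓞 k))) = RM (a : Ideal (𝓞 k)) := by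
    unfold Pool.Agent.H61.NVK.RF RM
    rw [hcn, hnm]
    rfl
  rw [this, hnm]

end

theorem pf_SCL (hFFE : T_FFE) (hFRI : T_FRI) : T_SCL := by
  intro k _ _ _
  have h1 : ∀ (I : Pool.Agent.H25.HK.FI k) (x : k), I ≠ 0 → x ≠ 0 →
      sF (FractionalIdeal.spanSingleton (𝓞 k)⁰ x * I) = sF I :=
    fun I x hI hx => sF_scale hFFE hFRI I x hI hx
  have h2 : ∀ a : (Ideal (𝓞 k))⁰, sF (iF (a : Ideal (𝓞 k))) = sC (a : Ideal (𝓞 k)) :=
    fun a => sF_iF hFRI a
  have h0 : ∀ a : (Ideal (𝓞 k))⁰, iF (a : Ideal (𝓞 k)) ≠ 0 := fun a => (hFRI k a 1).1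
  -- equality of classes
  have h3 : ∀ a b : (Ideal (𝓞 k))⁰, ClassGroup.mk0 a = ClassGroup.mk0 b →
      ∃ x y : k, x ≠ 0 ∧ y ≠ 0 ∧ FractionalIdeal.spanSingleton (𝓞 k)⁰ x * iF (a : Ideal (𝓞 k)) =
        FractionalIdeal.spanSingleton (𝓞 k)⁰ y * iF (b : Ideal (𝓞 k)) := by
    intro a b hab
    obtain ⟨x, y, hx, hy, h⟩ := (ClassGroup.mk0_eq_mk0_iff).1 hab
    refine ⟨algebraMap (𝓞 k) k x, algebraMap (𝓞 k) k y, ?_, ?_, ?_⟩
    · simpa using hx
    · simpa using hy
    · have h4 := congrArg (fun J : Ideal (𝓞 k) => (J : FractionalIdeal (𝓞 k)⁰ k)) h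
      simp only [FractionalIdeal.coeIdeal_mul, FractionalIdeal.coeIdeal_span_singleton] at h4
      exact h4
  refine ⟨h1, h2, ?_, ?_⟩
  · intro a b hab
    obtain ⟨x, y, hx, hy, h⟩ := h3 a b hab
    rw [← h2 a, ← h2 b, ← h1 _ x (h0 a) hx, ← h1 _ y (h0 b) hy, h]
  · obtain ⟨d, c0, hd, hdu⟩ := FractionalIdeal.exists_eq_spanSingleton_mul
      (Pool.Agent.H25.HK.du k 1)
    have hDU := Pool.Agent.H63.HK.du k
    have h1ne : (1 : Pool.Agent.H25.HK.FI k) ≠ 0 := one_ne_zero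
    have hc0 : c0 ≠ ⊥ := by
      rintro rfl
      apply (hDU 1 h1ne).1
      rw [hdu]
      simp
    have hdK : (algebraMap (𝓞 k) k d)⁻¹ ≠ 0 := by
      apply inv_ne_zero
      simpa using hd
    set c : (Ideal (𝓞 k))⁰ := ⟨c0, mem_nonZeroDivisors_iff_ne_zero.2 hc0⟩ with hc
    refine ⟨ClassGroup.mk0 c, fun a b hab => ?_⟩
    have hba : ClassGroup.mk0 (b * a) = ClassGroup.mk0 c := by
      rw [map_mul, hab, inv_mul_cancel_right]
    obtain ⟨x, y, hx, hy, h⟩ := h3 (b * a) c hba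
    have hba' : iF ((b * a : (Ideal (𝓞 k))⁰) : Ideal (𝓞 k)) =
        iF (b : Ideal (𝓞 k)) * iF (a : Ideal (𝓞 k)) := by
      unfold iF
      rw [← FractionalIdeal.coeIdeal_mul]
      rfl
    rw [hba'] at h
    have hcc : iF (c : Ideal (𝓞 k)) = (c0 : FractionalIdeal (𝓞 k)⁰ k) := rfl
    -- the dual of `a`
    have hdual : dF (iF (a : Ideal (𝓞 k))) = FractionalIdeal.spanSingleton (𝓞 k)⁰
        ((algebraMap (𝓞 k) k d)⁻¹ * (y⁻¹ * x)) * iF (b : Ideal (𝓞 k)) := by
      unfold dF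
      rw [(hDU _ (h0 a)).2.2.1, hdu, ← hcc]
      have h5 : iF (c : Ideal (𝓞 k)) = FractionalIdeal.spanSingleton (𝓞 k)⁰ (y⁻¹ * x) *
          (iF (b : Ideal (𝓞 k)) * iF (a : Ideal (𝓞 k))) := by
        rw [← FractionalIdeal.spanSingleton_mul_spanSingleton, mul_assoc, h, ← mul_assoc,
          FractionalIdeal.spanSingleton_mul_spanSingleton, inv_mul_cancel₀ hy,
          FractionalIdeal.spanSingleton_one, one_mul]
      rw [h5, ← FractionalIdeal.spanSingleton_mul_spanSingleton ((algebraMap (𝓞 k) k d)⁻¹)]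
      have h6 : (iF (a : Ideal (𝓞 k)))⁻¹ * iF (a : Ideal (𝓞 k)) = 1 :=
        inv_mul_cancel₀ (h0 a)
      calc (iF (a : Ideal (𝓞 k)))⁻¹ *
            (FractionalIdeal.spanSingleton (𝓞 k)⁰ (algebraMap (𝓞 k) k d)⁻¹ *
              (FractionalIdeal.spanSingleton (𝓞 k)⁰ (y⁻¹ * x) *
                (iF (b : Ideal (𝓞 k)) * iF (a : Ideal (𝓞 k))))) =
          (FractionalIdeal.spanSingleton (𝓞 k)⁰ (algebraMap (𝓞 k) k d)⁻¹ *
            FractionalIdeal.spanSingleton (𝓞 k)⁰ (y⁻¹ * x)) * iF (b : Ideal (𝓞 k)) *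
              ((iF (a : Ideal (𝓞 k)))⁻¹ * iF (a : Ideal (𝓞 k))) := by ring
        _ = _ := by rw [h6, mul_one]
    rw [hdual, h1 _ _ (h0 b) (mul_ne_zero hdK (mul_ne_zero (inv_ne_zero hy) hx)), h2]

end Pool.Agent.H45.NVE_SCL
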